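import Pool.Agent.Helper68.LM.St

/-! # Project LM: module FA (Fourier transform of an average) -/

set_option autoImplicit false

open MeasureTheory Set Filter Topology
open scoped ENNReal RealInnerProductSpace FourierTransform

namespace Pool.Agent.Helper80.LM

open Pool.Agent.Helper68.LM

theorem fa_integrable (g : Pl → ℝ) (hg : BB g) : Integrable g volume := by
  obtain ⟨hgm, K, hK, hK0⟩ := hg
  have h1 : IntegrableOn g (Metric.closedBall (0 : Pl) K) volume := by
    apply Measure.integrableOn_of_bounded (M := K)
    · exact measure_closedBall_lt_top.ne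
    · exact hgm.aestronglyMeasurable
    · exact Eventually.of_forall fun x => by
        rw [Real.norm_eq_abs]
        exact hK x
  apply h1.integrable_of_forall_notMem_eq_zero
  intro x hx
  apply hK0
  rw [mem_closedBall_zero_iff] at hx
  exact not_le.1 hx

/-- the character -/
noncomputable def ech (ξ : Pl) (x : Pl) : ℂ :=
  Complex.exp (((-2 * Real.pi * ⟪x, ξ⟫ : ℝ) : ℂ) * Complex.I)

theorem ech_norm (ξ x : Pl) : ‖ech ξ x‖ = 1 := Complex.norm_exp_ofReal_mul_I _

theorem ech_cont (ξ : Pl) : Continuous (ech ξ) := by
  unfold ech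
  fun_prop

theorem ech_add (ξ x y : Pl) : ech ξ (x + y) = ech ξ x * ech ξ y := by
  unfold ech
  rw [← Complex.exp_add, inner_add_left]
  congr 1
  push_cast
  ring

theorem ft_eq (h : Pl → ℝ) (ξ : Pl) : ft h ξ = ∫ x, ech ξ x * (h x : ℂ) := by
  unfold ft
  rw [Real.fourier_eq']
  rfl

theorem hFA : StFA := by
  intro ν R L t g hν ht hg ξ
  have : IsFiniteMeasure ν := ⟨lt_of_le_of_lt hν.2 ENNReal.ofReal_lt_top⟩
  have hgi := fa_integrable g hg
  have hgm := hg.1
  -- the integrand on the product
  set f : Pl → Pl → ℂ := fun x y => ech ξ x * (g (x - t • y) : ℂ) with hf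
  have hfm : Measurable (Function.uncurry f) := by
    have h1 : Measurable (fun z : Pl × Pl => z.1 - t • z.2) := by fun_prop
    have h2 : Measurable (fun z : Pl × Pl => (g (z.1 - t • z.2) : ℂ)) :=
      Complex.measurable_ofReal.comp (hgm.comp h1)
    have h3 : Measurable (fun z : Pl × Pl => ech ξ z.1) :=
      (ech_cont ξ).measurable.comp measurable_fst
    exact h3.mul h2
  have hnorm : ∀ x y, ‖f x y‖ = ‖g (x - t • y)‖ := by
    intro x y
    simp only [hf]
    rw [norm_mul, ech_norm, one_mul, Complex.norm_real]
  have hxint : ∀ y : Pl, Integrable (fun x => f x y) volume := by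
    intro y
    have h1 : Integrable (fun x => g (x - t • y)) volume := hgi.comp_sub_right _
    refine h1.norm.mono' ?_ (Eventually.of_forall fun x => (hnorm x y).le)
    have h4 : Measurable (fun x : Pl => x - t • y) := by fun_prop
    have h5 : Measurable (fun x : Pl => (g (x - t • y) : ℂ)) :=
      Complex.measurable_ofReal.comp (hgm.comp h4)
    have h2 : Measurable (fun x : Pl => ech ξ x * (g (x - t • y) : ℂ)) :=
      (ech_cont ξ).measurable.mul h5
    exact h2.aestronglyMeasurable
  have hprod : Integrable (Function.uncurry f) (volume.prod ν) := by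
    rw [integrable_prod_iff' hfm.aestronglyMeasurable]
    refine ⟨Eventually.of_forall hxint, ?_⟩
    have h1 : (fun y => ∫ x, ‖Function.uncurry f (x, y)‖) = fun _ => ∫ x, ‖g x‖ := by
      funext y
      have h2 : (fun x => ‖Function.uncurry f (x, y)‖) = fun x => ‖g (x - t • y)‖ := by
        funext x
        exact hnorm x y
      rw [h2]
      exact integral_sub_right_eq_self (fun x => ‖g x‖) (t • y)
    rw [h1]
    exact integrable_const _
  have hleft : ft (Av ν t g) ξ = ∫ x, ∫ y, f x y ∂ν := by
    rw [ft_eq]
    congr 1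
    funext x
    simp only [hf]
    rw [integral_const_mul]
    have h1 : ∫ a, ((g (x - t • a) : ℝ) : ℂ) ∂ν = ((∫ a, g (x - t • a) ∂ν : ℝ) : ℂ) :=
      integral_complex_ofReal
    rw [h1]
    rfl
  rw [hleft, integral_integral_swap hprod]
  have hinner : ∀ y : Pl, ∫ x, f x y = ech ξ (t • y) * ft g ξ := by
    intro y
    have h1 := integral_sub_right_eq_self (μ := (volume : Measure Pl))
      (fun x => ech ξ (x + t • y) * (g x : ℂ)) (t • y)
    have h2 : (fun x => f x y) = fun x => ech ξ (x - t • y + t • y) * (g (x - t • y) : ℂ) := by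
      funext x
      simp only [hf, sub_add_cancel]
    rw [h2, h1, ft_eq, ← integral_const_mul]
    congr 1
    funext x
    rw [ech_add]
    ring
  have h3 : (fun y => ∫ x, f x y) = fun y => ech ξ (t • y) * ft g ξ := funext hinner
  rw [h3, integral_mul_const]
  congr 1
  unfold fm ech
  congr 1
  funext y
  rw [real_inner_smul_left, real_inner_smul_right]

end Pool.Agent.Helper80.LM
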